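import Mathlib
import Pool.Agent.MP_c4f89b_an.Defs

-- part MP_c4f89b_an.General
section

/-! General lemmas: an Eilenberg type inequality, the Baire property of homeomorphism groups,
and one-dimensional facts. -/

namespace Pool.Agent.MP_c4f89b_an

open Set MeasureTheory Filter Topology
open scoped ENNReal

/-- If `π` does not increase measures, almost every fibre of `π` meets a set of finite measure in a
finite set. -/
theorem null_infinite_fibres {X Y : Type*} [MetricSpace X] [TopologicalSpace.SeparableSpace X]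
    [MeasurableSpace X] [OpensMeasurableSpace X] [MeasurableSpace Y]
    (μ : Measure X) (ν : Measure Y) (π : X → Y) (hπ : ∀ s, ν (π '' s) ≤ μ s)
    (A : Set X) (hA : μ A < ⊤) : ν {y | (π ⁻¹' {y} ∩ A).Infinite} = 0 := by
  classical
  set A' := toMeasurable μ A with hA'
  have hA'm : MeasurableSet A' := measurableSet_toMeasurable μ A
  have hH : μ A' < ⊤ := by rwa [hA', measure_toMeasurable]
  set Z : ℕ → ℕ → Set Y := fun m k => {y | ∃ T : Finset X, (∀ x ∈ T, π x = y ∧ x ∈ A') ∧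
    T.card = m ∧ ∀ x ∈ T, ∀ x' ∈ T, x ≠ x' → 1 / ((k : ℝ) + 1) < dist x x'} with hZ
  have hZk : ∀ m k : ℕ, (m : ℝ≥0∞) * ν (Z m k) ≤ μ A' := by
    intro m k
    obtain ⟨As, hm, hb, hd, hu, hp⟩ :=
      SeparableSpace.exists_measurable_partition_diam_le X (ε := 1 / ((k : ℝ) + 1)) (by positivity)
    set B : ℕ → Set Y := fun n => toMeasurable ν (π '' (A' ∩ As n)) with hB
    have hBm : ∀ n, MeasurableSet (B n) := fun n => measurableSet_toMeasurable _ _
    set F : Y → ℝ≥0∞ := fun y => ∑' n, (B n).indicator 1 y with hF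
    have hFm : Measurable F :=
      Measurable.tsum fun n => measurable_one.indicator (hBm n)
    have hint : ∫⁻ y, F y ∂ν ≤ μ A' := by
      rw [hF, lintegral_tsum fun n => (measurable_one.indicator (hBm n)).aemeasurable]
      have h1 : ∀ n, ∫⁻ y, (B n).indicator 1 y ∂ν ≤ μ (A' ∩ As n) := by
        intro n
        rw [lintegral_indicator_one (hBm n), hB, measure_toMeasurable]
        exact hπ _
      refine (ENNReal.tsum_le_tsum h1).trans ?_
      rw [← measure_iUnion (fun n n' h => (hp h).mono inter_subset_right inter_subset_right)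
        (fun n => hA'm.inter (hm n))]
      exact measure_mono (iUnion_subset fun n => inter_subset_left)
    refine le_trans ?_ ((mul_meas_ge_le_lintegral hFm m).trans hint)
    refine mul_le_mul_right (measure_mono ?_) _
    rintro y ⟨T, hT1, hT2, hT3⟩
    have hidx : ∀ x : X, ∃ n, x ∈ As n := fun x => by
      have : x ∈ ⋃ n, As n := hu ▸ mem_univ x
      simpa using this
    choose idx hidx using hidx
    have hinj : Set.InjOn idx T := by
      intro x hx x' hx' h
      by_contra hne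
      have h1 := hT3 x hx x' hx' hne
      have h2 : dist x x' ≤ Metric.diam (As (idx x)) :=
        Metric.dist_le_diam_of_mem (hb _) (hidx x) (h ▸ hidx x')
      linarith [hd (idx x)]
    show (m : ℝ≥0∞) ≤ F y
    calc (m : ℝ≥0∞) = ∑ n ∈ T.image idx, (1 : ℝ≥0∞) := by
          simp [Finset.card_image_of_injOn hinj, hT2]
      _ = ∑ n ∈ T.image idx, (B n).indicator 1 y := by
          refine Finset.sum_congr rfl fun n hn => ?_
          obtain ⟨x, hx, rfl⟩ := Finset.mem_image.mp hn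
          have : y ∈ B (idx x) :=
            subset_toMeasurable _ _ ⟨x, ⟨(hT1 x hx).2, hidx x⟩, (hT1 x hx).1⟩
          simp [this]
      _ ≤ F y := ENNReal.sum_le_tsum _
  have hmono : ∀ m, Monotone (Z m) := by
    intro m k k' hk y ⟨T, h1, h2, h3⟩
    refine ⟨T, h1, h2, fun x hx x' hx' hne => lt_of_le_of_lt ?_ (h3 x hx x' hx' hne)⟩
    have : (k : ℝ) ≤ k' := by exact_mod_cast hk
    exact one_div_le_one_div_of_le (by positivity) (by linarith)
  have hsub : ∀ m, {y | (π ⁻¹' {y} ∩ A).Infinite} ⊆ ⋃ k, Z m k := by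
    intro m y hy
    obtain ⟨T, hT, hc⟩ := Set.Infinite.exists_subset_card_eq hy m
    have hev : ∀ᶠ k : ℕ in atTop, ∀ x ∈ T, ∀ x' ∈ T, x ≠ x' → 1 / ((k : ℝ) + 1) < dist x x' := by
      rw [Filter.eventually_all_finset]
      intro x _
      rw [Filter.eventually_all_finset]
      intro x' _
      by_cases h : x = x'
      · simp [h]
      · have := (tendsto_one_div_add_atTop_nhds_zero_nat (𝕜 := ℝ)).eventually
          (gt_mem_nhds (dist_pos.mpr h))
        exact this.mono fun k hk _ => hk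
    obtain ⟨k, hk⟩ := hev.exists
    exact mem_iUnion.mpr ⟨k, T, fun x hx => ⟨(hT hx).1, subset_toMeasurable _ _ (hT hx).2⟩, hc, hk⟩
  have hle : ∀ m : ℕ, (m : ℝ≥0∞) * ν {y | (π ⁻¹' {y} ∩ A).Infinite} ≤ μ A' := by
    intro m
    refine (mul_le_mul_right (measure_mono (hsub m)) _).trans ?_
    rw [(hmono m).measure_iUnion, ENNReal.mul_iSup]
    exact iSup_le fun k => hZk m k
  by_contra hne
  have := ENNReal.iSup_mul (ι := ℕ) (fun m => (m : ℝ≥0∞)) (ν {y | (π ⁻¹' {y} ∩ A).Infinite})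
  rw [ENNReal.iSup_natCast, ENNReal.top_mul hne] at this
  exact hH.ne (top_le_iff.mp (this ▸ iSup_le hle))

/-- The homeomorphisms of a compact metric space form a Baire space. -/
theorem baire_homeo (X : Type*) [MetricSpace X] [CompactSpace X] :
    BaireSpace {f : C(X, X) // IsHomeomorph f} := by
  let inv : {f : C(X, X) // IsHomeomorph f} → C(X, X) :=
    fun f => ⟨(f.2.homeomorph f.1).symm, (f.2.homeomorph f.1).symm.continuous⟩
  have h1 : ∀ f x, inv f (f.1 x) = x := fun f x => (f.2.homeomorph f.1).symm_apply_apply x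
  have h2 : ∀ (f : {f : C(X, X) // IsHomeomorph f}) (x : X), f.1 (inv f x) = x := fun f x =>
    (f.2.homeomorph f.1).apply_symm_apply x
  have hinv : Continuous inv := by
    rw [Metric.continuous_iff]
    intro f ε hε
    obtain ⟨δ, hδ, hu⟩ := Metric.uniformContinuous_iff.mp
      (CompactSpace.uniformContinuous_of_continuous (inv f).continuous) ε hε
    refine ⟨δ, hδ, fun g hg => (ContinuousMap.dist_lt_iff hε).mpr fun y => ?_⟩
    have e : inv g y = inv f (f.1 (inv g y)) := (h1 f _).symm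
    rw [e]
    apply hu
    have : dist (f.1 (inv g y)) y = dist (f.1 (inv g y)) (g.1 (inv g y)) := by rw [h2]
    rw [this, dist_comm]
    exact lt_of_le_of_lt (ContinuousMap.dist_apply_le_dist _) hg
  let ι : {f : C(X, X) // IsHomeomorph f} → C(X, X) × C(X, X) := fun f => (f.1, inv f)
  have hι : Continuous ι := continuous_subtype_val.prodMk hinv
  have hemb : IsEmbedding ι :=
    IsEmbedding.of_comp hι continuous_fst IsEmbedding.subtypeVal
  have hr : range ι = ⋂ x, ({p : C(X, X) × C(X, X) | p.2 (p.1 x) = x} ∩ {p | p.1 (p.2 x) = x}) := by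
    ext p
    simp only [mem_range, mem_iInter, mem_inter_iff, mem_ofPred_eq]
    constructor
    · rintro ⟨f, rfl⟩ x
      exact ⟨h1 f x, h2 f x⟩
    · intro h
      have hp : IsHomeomorph p.1 := isHomeomorph_iff_exists_inverse.mpr
        ⟨p.1.continuous, p.2, fun x => (h x).1, fun x => (h x).2, p.2.continuous⟩
      refine ⟨⟨p.1, hp⟩, Prod.ext rfl ?_⟩
      ext y
      show inv ⟨p.1, hp⟩ y = p.2 y
      conv_lhs => rw [← (h y).2]
      exact h1 ⟨p.1, hp⟩ _
  have hcl : IsClosedEmbedding ι := ⟨hemb, by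
    rw [hr]
    exact isClosed_iInter fun x =>
      (isClosed_eq (by fun_prop) continuous_const).inter (isClosed_eq (by fun_prop) continuous_const)⟩
  have := hcl.IsCompletelyMetrizableSpace
  infer_instance

/-- Two disjoint sign changes of `φ` inside `[a, b]`. -/
def TwoCross (φ : ℝ → ℝ) (a b : ℝ) : Prop :=
  ∃ a₁ b₁ a₂ b₂, a ≤ a₁ ∧ a₁ < b₁ ∧ b₁ < a₂ ∧ a₂ < b₂ ∧ b₂ ≤ b ∧ φ a₁ * φ b₁ < 0 ∧ φ a₂ * φ b₂ < 0

lemma twoCross_of_rat {φ : ℝ → ℝ} (hφ : Continuous φ)
    (h : ∀ p r q : ℕ, p < r → r ≤ q → φ (p / q) * φ (r / q) ≤ 0 → TwoCross φ (p / q) (r / q))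
    {a b : ℝ} (ha : 0 ≤ a) (hab : a < b) (hb : b ≤ 1) (hc : φ a * φ b < 0) : TwoCross φ a b := by
  have t1 := tendsto_nat_ceil_mul_div_atTop ha
  have t2 := tendsto_nat_floor_mul_div_atTop (ha.trans hab.le)
  have t1' := t1.comp tendsto_natCast_atTop_atTop
  have t2' := t2.comp tendsto_natCast_atTop_atTop
  have e1 := (((hφ.tendsto a).comp t1').mul ((hφ.tendsto b).comp t2')).eventually (gt_mem_nhds hc)
  have e2 := (t2'.sub t1').eventually (lt_mem_nhds (sub_pos.mpr hab))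
  obtain ⟨q, hq1, hq2, hq3⟩ := (e1.and (e2.and (eventually_gt_atTop 0))).exists
  simp only [Function.comp] at hq1 hq2
  have hq0 : (0 : ℝ) < q := by exact_mod_cast hq3
  have hpr : ⌈a * q⌉₊ < ⌊b * q⌋₊ := by
    have : ((⌈a * q⌉₊ : ℕ) : ℝ) / q < ((⌊b * q⌋₊ : ℕ) : ℝ) / q := by linarith
    rw [div_lt_div_iff_of_pos_right hq0] at this
    exact_mod_cast this
  have hb' : ((⌊b * q⌋₊ : ℕ) : ℝ) ≤ b * q := Nat.floor_le (by nlinarith)
  have hrq : ⌊b * q⌋₊ ≤ q := by
    have : ((⌊b * q⌋₊ : ℕ) : ℝ) ≤ q := by nlinarith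
    exact_mod_cast this
  obtain ⟨a₁, b₁, a₂, b₂, k1, k2, k3, k4, k5, k6, k7⟩ := h _ _ q hpr hrq hq1.le
  refine ⟨a₁, b₁, a₂, b₂, le_trans ?_ k1, k2, k3, k4, k5.trans ?_, k6, k7⟩
  · rw [le_div_iff₀ hq0]; exact Nat.le_ceil _
  · rw [div_le_iff₀ hq0]; exact hb'

lemma exists_zero_of_mul_neg {φ : ℝ → ℝ} (hφ : Continuous φ) {a b : ℝ} (hab : a ≤ b)
    (h : φ a * φ b < 0) : ∃ u ∈ Icc a b, φ u = 0 := by
  rcases mul_neg_iff.mp h with ⟨h1, h2⟩ | ⟨h1, h2⟩
  · exact intermediate_value_Icc' hab hφ.continuousOn ⟨h2.le, h1.le⟩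
  · exact intermediate_value_Icc hab hφ.continuousOn ⟨h1.le, h2.le⟩

/-- If every sign change splits into two, the zero set is uncountable. -/
theorem not_countable_zeros {φ : ℝ → ℝ} (hφ : Continuous φ)
    (h : ∀ p r q : ℕ, p < r → r ≤ q → φ (p / q) * φ (r / q) ≤ 0 → TwoCross φ (p / q) (r / q))
    (h01 : φ 0 * φ 1 < 0) : ¬ {u | u ∈ Icc (0 : ℝ) 1 ∧ φ u = 0}.Countable := by
  intro hc
  obtain ⟨e, he⟩ := Set.countable_iff_exists_subset_range.mp hc
  let P := {p : ℝ × ℝ // 0 ≤ p.1 ∧ p.1 < p.2 ∧ p.2 ≤ 1 ∧ φ p.1 * φ p.2 < 0}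
  have step : ∀ (n : ℕ) (p : P), ∃ p' : P, p.1.1 ≤ p'.1.1 ∧ p'.1.2 ≤ p.1.2 ∧
      e n ∉ Icc p'.1.1 p'.1.2 := by
    rintro n ⟨⟨a, b⟩, ha, hab, hb, hc⟩
    obtain ⟨a₁, b₁, a₂, b₂, k1, k2, k3, k4, k5, k6, k7⟩ := twoCross_of_rat hφ h ha hab hb hc
    dsimp only at *
    by_cases hn : e n ≤ b₁
    · exact ⟨⟨(a₂, b₂), by dsimp only; linarith, k4, by dsimp only; linarith, k7⟩,
        by dsimp only; linarith, k5, fun hm => by dsimp only at hm; linarith [hm.1]⟩
    · exact ⟨⟨(a₁, b₁), by dsimp only; linarith, k2, by dsimp only; linarith, k6⟩,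
        k1, by dsimp only; linarith, fun hm => hn hm.2⟩
  choose nxt hn1 hn2 hn3 using step
  let s : ℕ → P := fun n => Nat.rec ⟨(0, 1), le_rfl, zero_lt_one, le_rfl, h01⟩ (fun n p => nxt n p) n
  have hs : ∀ n, s (n + 1) = nxt n (s n) := fun n => rfl
  let Z : ℕ → Set ℝ := fun n => Icc (s n).1.1 (s n).1.2 ∩ φ ⁻¹' {0}
  have hZc : ∀ n, IsClosed (Z n) := fun n => isClosed_Icc.inter (isClosed_singleton.preimage hφ)
  obtain ⟨z, hz⟩ := IsCompact.nonempty_iInter_of_sequence_nonempty_isCompact_isClosed Z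
    (fun n => inter_subset_inter_left _ (by
      rw [hs]; exact Icc_subset_Icc (hn1 n (s n)) (hn2 n (s n))))
    (fun n => by
      obtain ⟨u, hu, hu0⟩ := exists_zero_of_mul_neg hφ (s n).2.2.1.le (s n).2.2.2.2
      exact ⟨u, hu, hu0⟩)
    (isCompact_Icc.inter_right (isClosed_singleton.preimage hφ)) hZc
  have hz' := mem_iInter.mp hz
  obtain ⟨n, hn⟩ := he (show z ∈ {u | u ∈ Icc (0 : ℝ) 1 ∧ φ u = 0} from ⟨(hz' 0).1, (hz' 0).2⟩)
  have := (hz' (n + 1)).1
  rw [hs, ← hn] at this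
  exact hn3 n (s n) this

lemma discrete_ivt {s : ℕ → ℝ} {i j : ℕ} (hij : i ≤ j) (h0 : ∀ k, k ≤ j → s k ≠ 0)
    (h : s i * s j < 0) : ∃ k, i ≤ k ∧ k < j ∧ s k * s (k + 1) < 0 := by
  induction j, hij using Nat.le_induction with
  | base => nlinarith [mul_self_nonneg (s i)]
  | succ j hij ih =>
    by_cases hj : s j * s (j + 1) < 0
    · exact ⟨j, hij, by omega, hj⟩
    · have hj' : 0 < s j * s (j + 1) :=
        lt_of_le_of_ne (not_lt.mp hj) (mul_ne_zero (h0 j (by omega)) (h0 (j + 1) le_rfl)).symm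
      have : s i * s j < 0 := by
        by_contra hc
        have h1 := mul_nonneg (not_lt.mp hc) hj'.le
        have h2 : 0 < s j * s j := mul_self_pos.mpr (h0 j (by omega))
        nlinarith
      obtain ⟨k, h1, h2, h3⟩ := ih (fun k hk => h0 k (by omega)) this
      exact ⟨k, h1, by omega, h3⟩

lemma sign_stable {A A' η : ℝ} (h1 : η < |A|) (h2 : |A' - A| ≤ η) : 0 < A * A' := by
  rcases abs_le.mp h2 with ⟨h3, h4⟩
  rcases lt_abs.mp h1 with h | h <;> nlinarith

lemma neg_transfer {A A' B B' : ℝ} (h1 : 0 < A * A') (h2 : 0 < B * B') (h : A * B < 0) :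
    A' * B' < 0 := by
  by_contra hc
  have := mul_pos h1 h2
  nlinarith [mul_nonneg (not_lt.mp hc) (neg_pos.mpr h).le]

lemma neg_transfer' {A A' B B' : ℝ} (h1 : 0 < A * A') (h2 : 0 < B * B') (h : A' * B' ≤ 0) :
    A * B < 0 := by
  by_contra hc
  have := mul_pos h1 h2
  nlinarith [mul_nonneg (not_lt.mp hc) (neg_nonneg.mpr h)]

/-- A strictly increasing staircase on the unit grid. -/
lemma exists_stair_unit {θ : ℝ} (h0 : 0 < θ) (h1 : θ < 1) : ∃ G : ℝ → ℝ, Continuous G ∧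
    StrictMono G ∧ (∀ k : ℕ, G k = k) ∧ ∀ (k : ℕ) (x : ℝ), k + θ ≤ x → k + 1 - θ < G x := by
  let m : ℝ → ℝ := fun t => θ * t + (1 - θ) * min (t / θ) 1
  have hm0 : m 0 = 0 := by simp [m]
  have hm1 : m 1 = 1 := by
    have : (1 : ℝ) ≤ 1 / θ := by rw [le_div_iff₀ h0]; linarith
    simp only [m, min_eq_right this]; ring
  have hmono : StrictMono m := by
    intro s t hst
    have : min (s / θ) 1 ≤ min (t / θ) 1 :=
      min_le_min_right _ (div_le_div_of_nonneg_right hst.le h0.le)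
    simp only [m]
    nlinarith
  have hmc : Continuous m := by fun_prop
  let G : ℝ → ℝ := fun x => ⌊x⌋ + m (Int.fract x)
  have hG : StrictMono G := by
    intro x y hxy
    rcases (Int.floor_mono hxy.le).lt_or_eq with h | h
    · have h' : (⌊x⌋ : ℝ) + 1 ≤ ⌊y⌋ := by exact_mod_cast h
      have a1 : m (Int.fract x) < 1 := hm1 ▸ hmono (Int.fract_lt_one x)
      have a2 : 0 ≤ m (Int.fract y) := hm0 ▸ hmono.monotone (Int.fract_nonneg y)
      simp only [G]; linarith
    · have : Int.fract x < Int.fract y := by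
        simp only [Int.fract, h]; linarith
      simp only [G, h]
      linarith [hmono this]
  refine ⟨G, ?_, hG, fun k => by simp [G, hm0], fun k x hx => ?_⟩
  · have hc : Continuous ((fun t => m t - t) ∘ Int.fract) :=
      ContinuousOn.comp_fract'' (hmc.sub continuous_id).continuousOn (by simp [hm0, hm1])
    have : G = fun x => x + ((fun t => m t - t) ∘ Int.fract) x := by
      ext x
      simp only [G, Function.comp, Int.fract]; ring
    rw [this]
    exact continuous_id.add hc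
  · refine lt_of_lt_of_le ?_ (hG.monotone hx)
    have e1 : ⌊(k : ℝ) + θ⌋ = k := by
      rw [Int.floor_eq_iff]; push_cast; constructor <;> linarith
    have e2 : Int.fract ((k : ℝ) + θ) = θ := by
      simp only [Int.fract, e1]; push_cast; ring
    simp only [G, e1, e2, m, div_self h0.ne', min_self]
    push_cast
    nlinarith

/-- A strictly increasing staircase on the grid of mesh `1 / N`. -/
lemma exists_stair {θ : ℝ} (h0 : 0 < θ) (h1 : θ < 1) {N : ℕ} (hN : 0 < N) : ∃ F : ℝ → ℝ,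
    Continuous F ∧ StrictMono F ∧ (∀ k : ℕ, F (k / N) = k / N) ∧
      (∀ (k : ℕ) (x : ℝ), (k + θ) / N ≤ x → (k + 1 - θ) / N < F x) ∧
      ∀ x, 0 ≤ x → |F x - x| ≤ 1 / N := by
  obtain ⟨G, hc, hm, hk, hG⟩ := exists_stair_unit h0 h1
  have hN' : (0 : ℝ) < N := by exact_mod_cast hN
  refine ⟨fun x => G (N * x) / N, by fun_prop, fun x y hxy => ?_, fun k => ?_, fun k x hx => ?_,
    fun x hx => ?_⟩
  · exact div_lt_div_of_pos_right (hm (by nlinarith)) hN'
  · have : (N : ℝ) * (k / N) = k := by field_simp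
    simp only [this, hk]
  · apply div_lt_div_of_pos_right _ hN'
    apply hG
    rw [div_le_iff₀ hN'] at hx
    linarith
  · have a1 := Nat.floor_le (mul_nonneg hN'.le hx)
    have a2 := Nat.lt_floor_add_one ((N : ℝ) * x)
    have b1 := hm.monotone a1
    have b2 := hm.monotone a2.le
    rw [hk] at b1
    have := hk (⌊(N : ℝ) * x⌋₊ + 1)
    push_cast at this
    rw [this] at b2
    have e : G (N * x) / N - x = (G (N * x) - N * x) / N := by field_simp
    simp only [e]
    rw [abs_div, abs_of_pos hN']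
    apply div_le_div_of_nonneg_right _ hN'.le
    rw [abs_le]; constructor <;> linarith

end Pool.Agent.MP_c4f89b_an

end

-- part MP_c4f89b_an.Zigzag
section

/-! Shears of the cube and the zigzag homeomorphism. -/

namespace Pool.Agent.MP_c4f89b_an

open Set MeasureTheory Filter Topology
open scoped ENNReal

variable {d : ℕ}

/-- Clamping to the unit interval. -/
noncomputable def clamp (t : ℝ) : ℝ := max 0 (min t 1)

lemma clamp_mem (t : ℝ) : clamp t ∈ Icc (0 : ℝ) 1 :=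
  ⟨le_max_left _ _, max_le zero_le_one (min_le_right _ _)⟩

lemma clamp_eq {t : ℝ} (h : t ∈ Icc (0 : ℝ) 1) : clamp t = t := by
  rw [clamp, min_eq_left h.2, max_eq_right h.1]

@[fun_prop] lemma continuous_clamp : Continuous clamp := by
  unfold clamp; fun_prop

/-- The retraction of `ℝ^d` onto the cube. -/
noncomputable def proj (y : Fin d → ℝ) : Cube d :=
  ⟨WithLp.toLp 2 fun i => clamp (y i), fun i => clamp_mem (y i)⟩

@[simp] lemma proj_apply (y : Fin d → ℝ) (i : Fin d) : (proj y).1 i = clamp (y i) := rfl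

@[fun_prop] lemma continuous_proj : Continuous (proj : (Fin d → ℝ) → Cube d) := by
  unfold proj
  exact Continuous.subtype_mk ((PiLp.continuous_toLp 2 _).comp (by fun_prop)) _

@[fun_prop] lemma continuous_coord (i : Fin d) : Continuous fun x : Cube d => x.1 i := by
  fun_prop

lemma cube_ext {x x' : Cube d} (h : ∀ i, x.1 i = x'.1 i) : x = x' :=
  Subtype.ext (PiLp.ext h)

lemma proj_coord (x : Cube d) : proj (fun i => x.1 i) = x :=
  cube_ext fun i => clamp_eq (x.2 i)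

instance compactSpace_cube : CompactSpace (Cube d) := by
  refine ⟨?_⟩
  have : (univ : Set (Cube d)) = proj '' Icc (0 : Fin d → ℝ) 1 := by
    symm
    rw [eq_univ_iff_forall]
    intro x
    exact ⟨fun i => x.1 i, ⟨fun i => (x.2 i).1, fun i => (x.2 i).2⟩, proj_coord x⟩
  rw [this]
  exact isCompact_Icc.image continuous_proj

lemma abs_coord_le_dist (x x' : Cube d) (i : Fin d) : |x.1 i - x'.1 i| ≤ dist x x' := by
  rw [← Real.dist_eq, Subtype.dist_eq]
  exact PiLp.dist_apply_le x.1 x'.1 i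

lemma uniform_coord (f : C(Cube d, Cube d)) {δ : ℝ} (hδ : 0 < δ) : ∃ ρ > 0, ∀ x x' : Cube d,
    (∀ i, |x.1 i - x'.1 i| ≤ ρ) → dist (f x) (f x') < δ := by
  obtain ⟨r, hr, hu⟩ := Metric.uniformContinuous_iff.mp
    (CompactSpace.uniformContinuous_of_continuous f.continuous) δ hδ
  refine ⟨r / (d + 1), by positivity, fun x x' h => hu ?_⟩
  rw [Subtype.dist_eq, EuclideanSpace.dist_eq, Real.sqrt_lt' hr]
  have hd : (0 : ℝ) ≤ d := Nat.cast_nonneg d
  calc ∑ i, dist (x.1 i) (x'.1 i) ^ 2 ≤ ∑ _i : Fin d, (r / (d + 1)) ^ 2 := by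
        refine Finset.sum_le_sum fun i _ => ?_
        rw [Real.dist_eq]
        exact pow_le_pow_left₀ (abs_nonneg _) (h i) 2
    _ = d * (r / (d + 1)) ^ 2 := by simp
    _ < r ^ 2 := by
        rw [div_pow, ← mul_div_assoc, div_lt_iff₀ (by positivity)]
        have : (d : ℝ) < (d + 1) ^ 2 := by nlinarith
        rw [mul_comm]
        exact mul_lt_mul_of_pos_left this (by positivity)

/-- A shear: coordinate `i` is moved by a convex combination of the identity and `F`, with a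
weight depending on coordinate `i'`. -/
lemma exists_shear {i i' : Fin d} (hi : i' ≠ i) (γ : C(ℝ, ℝ)) (hγ : ∀ t, γ t ∈ Icc (0 : ℝ) 1)
    {F : ℝ → ℝ} (hc : Continuous F) (hm : StrictMono F) (h0 : F 0 = 0) (h1 : F 1 = 1) :
    ∃ T : C(Cube d, Cube d), IsHomeomorph T ∧
      (∀ x, (T x).1 i = (1 - γ (x.1 i')) * x.1 i + γ (x.1 i') * F (x.1 i)) ∧
      ∀ x l, l ≠ i → (T x).1 l = x.1 l := by
  let ψ : ℝ → ℝ → ℝ := fun s t => (1 - γ s) * t + γ s * F t
  have hψm : ∀ s, StrictMono (ψ s) := by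
    intro s t t' h
    have a1 := hm h
    obtain ⟨a2, a3⟩ := hγ s
    simp only [ψ]
    rcases a2.lt_or_eq with a2 | a2
    · nlinarith
    · rw [← a2]; linarith
  have hψ0 : ∀ s, ψ s 0 = 0 := fun s => by simp [ψ, h0]
  have hψ1 : ∀ s, ψ s 1 = 1 := fun s => by simp [ψ, h1]
  have hψI : ∀ s t, t ∈ Icc (0 : ℝ) 1 → ψ s t ∈ Icc (0 : ℝ) 1 := fun s t ht =>
    ⟨hψ0 s ▸ (hψm s).monotone ht.1, hψ1 s ▸ (hψm s).monotone ht.2⟩
  let T : Cube d → Cube d := fun x =>
    proj (Function.update (fun l => x.1 l) i (ψ (x.1 i') (x.1 i)))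
  have hT1 : ∀ x, (T x).1 i = ψ (x.1 i') (x.1 i) := fun x => by
    simp only [T, proj_apply, Function.update_self]
    exact clamp_eq (hψI _ _ (x.2 i))
  have hT2 : ∀ x l, l ≠ i → (T x).1 l = x.1 l := fun x l hl => by
    simp only [T, proj_apply, Function.update_of_ne hl]
    exact clamp_eq (x.2 l)
  have hTc : Continuous T := by
    refine continuous_proj.comp (Continuous.update (by fun_prop) i ?_)
    simp only [ψ]
    fun_prop
  refine ⟨⟨T, hTc⟩, isHomeomorph_iff_continuous_bijective.mpr ⟨hTc, ?_, ?_⟩, hT1, hT2⟩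
  · intro x x' h
    have h' : ∀ l, (T x).1 l = (T x').1 l := fun l => by
      have : T x = T x' := h
      rw [this]
    have e : x.1 i' = x'.1 i' := by rw [← hT2 x i' hi, h', hT2 x' i' hi]
    refine cube_ext fun l => ?_
    by_cases hl : l = i
    · subst hl
      have := h' l
      rw [hT1, hT1, e] at this
      exact (hψm _).injective this
    · rw [← hT2 x l hl, h', hT2 x' l hl]
  · intro z
    have hcψ : Continuous (ψ (z.1 i')) := by simp only [ψ]; fun_prop
    obtain ⟨t, ht, hz⟩ := intermediate_value_Icc zero_le_one hcψ.continuousOn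
      (show z.1 i ∈ Icc (ψ (z.1 i') 0) (ψ (z.1 i') 1) by rw [hψ0, hψ1]; exact z.2 i)
    refine ⟨proj (Function.update (fun l => z.1 l) i t), cube_ext fun l => ?_⟩
    show (T _).1 l = _
    by_cases hl : l = i
    · subst hl
      rw [hT1]
      simp only [proj_apply, Function.update_self, Function.update_of_ne hi, clamp_eq ht,
        clamp_eq (z.2 i'), hz]
    · rw [hT2 _ l hl]
      simp only [proj_apply, Function.update_of_ne hl, clamp_eq (z.2 l)]

/-- The point of the cube with coordinates `y`, except that coordinate `i₀` is `u`. -/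
noncomputable def pt (i₀ : Fin d) (y : Fin d → ℝ) (u : ℝ) : Cube d :=
  proj (Function.update y i₀ u)

lemma pt_self (i₀ : Fin d) (y : Fin d → ℝ) {u : ℝ} (hu : u ∈ Icc (0 : ℝ) 1) :
    (pt i₀ y u).1 i₀ = u := by
  simp [pt, clamp_eq hu]

lemma pt_ne {i₀ l : Fin d} (hl : l ≠ i₀) (y : Fin d → ℝ) (u : ℝ) :
    (pt i₀ y u).1 l = clamp (y l) := by
  simp [pt, Function.update_of_ne hl]

lemma comb_close {c t s r : ℝ} (hc : c ∈ Icc (0 : ℝ) 1) (h : |s - t| ≤ r) :
    |(1 - c) * t + c * s - t| ≤ r := by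
  have : (1 - c) * t + c * s - t = c * (s - t) := by ring
  rw [this, abs_mul, abs_of_nonneg hc.1]
  nlinarith [hc.1, hc.2, abs_nonneg (s - t)]

/-- The zigzag homeomorphism. -/
theorem exists_zigzag {i₀ i₁ : Fin d} (hi : i₀ ≠ i₁) {N : ℕ} (hN : 0 < N) {ρ ε : ℝ} (hρ : 0 < ρ)
    (hε : 0 < ε) : ∃ h : C(Cube d, Cube d), IsHomeomorph h ∧ ∃ S : Set ℝ,
      volume (Icc (0 : ℝ) 1 \ S) ≤ ENNReal.ofReal ε ∧
      (∀ x l, |(h x).1 l - x.1 l| ≤ max (1 / (N : ℝ)) ρ) ∧
      (∀ (y : Fin d → ℝ) (k : ℕ), k ≤ N → ∀ l,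
        |(h (pt i₀ y (k / N))).1 l - (pt i₀ y (k / N)).1 l| ≤ ρ) ∧
      ∀ (y : Fin d → ℝ), y i₁ ∈ S → ∀ k : ℕ, k < N → ∃ u₁ u₂ : ℝ,
        (k : ℝ) / N < u₁ ∧ u₁ < u₂ ∧ u₂ < ((k + 1 : ℕ) : ℝ) / N ∧
        (∀ l, |(h (pt i₀ y u₁)).1 l - (pt i₀ y (((k + 1 : ℕ) : ℝ) / N)).1 l| ≤ ρ) ∧
        (∀ l, |(h (pt i₀ y u₂)).1 l - (pt i₀ y (k / N)).1 l| ≤ ρ) := by
  have hN' : (0 : ℝ) < N := by exact_mod_cast hN
  have hN1 : (1 : ℝ) ≤ N := by exact_mod_cast hN
  set θ : ℝ := min (min (ρ / 2) (ε / 4)) (1 / 3) with hθ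
  have hθ0 : 0 < θ := by positivity
  have hθ1 : θ ≤ 1 / 3 := min_le_right _ _
  have hθρ : θ ≤ ρ / 2 := (min_le_left _ _).trans (min_le_left _ _)
  have hθε : θ ≤ ε / 4 := (min_le_left _ _).trans (min_le_right _ _)
  obtain ⟨M, hM⟩ := exists_nat_gt (1 / ρ)
  have hM' : (0 : ℝ) < M := lt_trans (by positivity) hM
  have hM0 : 0 < M := by exact_mod_cast hM'
  have hM1 : (1 : ℝ) ≤ M := by exact_mod_cast hM0
  have hMρ : 1 / (M : ℝ) ≤ ρ := by
    rw [div_lt_iff₀ hρ] at hM
    rw [div_le_iff₀ hM']; linarith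
  obtain ⟨FW, cW, mW, gW, pW, dW⟩ := exists_stair hθ0 (by linarith) hM0
  obtain ⟨FV, cV, mV, gV, pV, dV⟩ := exists_stair hθ0 (by linarith) hN
  have FW0 : FW 0 = 0 := by simpa using gW 0
  have FW1 : FW 1 = 1 := by simpa [div_self hM'.ne'] using gW M
  have FV0 : FV 0 = 0 := by simpa using gV 0
  have FV1 : FV 1 = 1 := by simpa [div_self hN'.ne'] using gV N
  set S : Set ℝ := Icc (0 : ℝ) 1 \ ⋃ k ∈ Finset.range (M + 1), Ioo ((k - θ) / M) ((k + θ) / M)
    with hS
  have hSc : IsCompact S := isCompact_Icc.diff (isOpen_biUnion fun _ _ => isOpen_Ioo)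
  have hdisj : Disjoint S (FW '' S) := by
    rw [Set.disjoint_right]
    rintro _ ⟨x, ⟨hx, hx'⟩, rfl⟩ ⟨hy, hy'⟩
    simp only [mem_iUnion, not_exists, Finset.mem_range, mem_Ioo, not_and, not_lt] at hx' hy'
    set k := ⌊(M : ℝ) * x⌋₊ with hk
    have a1 : (k : ℝ) ≤ M * x := Nat.floor_le (mul_nonneg hM'.le hx.1)
    have a2 : (M : ℝ) * x < k + 1 := Nat.lt_floor_add_one _
    have a3 : (k : ℝ) ≤ M := by nlinarith [hx.2]
    have a4 : k ≤ M := by exact_mod_cast a3
    have a5 : (k + θ) / M ≤ x := hx' k (by omega) (by rw [div_lt_iff₀ hM']; linarith)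
    have a6 : k < M := by
      rw [div_le_iff₀ hM'] at a5
      have : (k : ℝ) < M := by nlinarith [hx.2]
      exact_mod_cast this
    have b1 := pW k x a5
    have b2 := hy' (k + 1) (by omega) (by push_cast; exact b1)
    have b3 : FW x ≤ ((k + 1 : ℕ) : ℝ) / M := by
      rw [← gW (k + 1)]
      apply mW.monotone
      rw [le_div_iff₀ hM']; push_cast; linarith
    have : (((k + 1 : ℕ) : ℝ)) / M < (((k + 1 : ℕ) : ℝ) + θ) / M :=
      div_lt_div_of_pos_right (by linarith) hM'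
    linarith
  obtain ⟨γV, hV0, hV1, hVI⟩ := exists_continuous_zero_one_of_isClosed hSc.isClosed
    (hSc.image cW).isClosed hdisj
  have hdisj' : Disjoint ((fun k : ℕ => (k + 2 * θ) / N) '' Iio N)
      ((fun k : ℕ => (k + θ) / N) '' Iio N) := by
    rw [Set.disjoint_left]
    rintro _ ⟨k, -, rfl⟩ ⟨k', -, hk'⟩
    have : (k' : ℝ) + θ = k + 2 * θ := by
      simpa [div_left_inj' hN'.ne'] using hk'
    have e1 : (k : ℝ) < k' := by linarith
    have e2 : (k' : ℝ) < k + 1 := by linarith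
    have e1' : k < k' := by exact_mod_cast e1
    have e2' : k' < k + 1 := by exact_mod_cast e2
    omega
  obtain ⟨γW, hW0, hW1, hWI⟩ := exists_continuous_zero_one_of_isClosed
    ((finite_Iio N).image _).isClosed ((finite_Iio N).image _).isClosed hdisj'
  obtain ⟨W, hW, W1, W2⟩ := exists_shear hi γW hWI cW mW FW0 FW1
  obtain ⟨V, hV, V1, V2⟩ := exists_shear hi.symm γV hVI cV mV FV0 FV1
  have c0 : ∀ x, (V (W x)).1 i₀ =
      (1 - γV ((W x).1 i₁)) * x.1 i₀ + γV ((W x).1 i₁) * FV (x.1 i₀) := fun x => by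
    rw [V1, W2 x i₀ hi]
  have c1 : ∀ x l, l ≠ i₀ → |(V (W x)).1 l - x.1 l| ≤ ρ := fun x l hl => by
    rw [V2 _ l hl]
    by_cases hl' : l = i₁
    · subst hl'
      rw [W1]
      exact comb_close (hWI _) ((dW _ (x.2 l).1).trans hMρ)
    · rw [W2 x l hl']; simp [hρ.le]
  have hgrid : ∀ k : ℕ, k ≤ N → (k : ℝ) / N ∈ Icc (0 : ℝ) 1 := fun k hk =>
    ⟨by positivity, by rw [div_le_one hN']; exact_mod_cast hk⟩
  refine ⟨V.comp W, hV.comp hW, S, ?_, fun x l => ?_, fun y k hk l => ?_, fun y hy k hk => ?_⟩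
  · have : Icc (0 : ℝ) 1 \ S ⊆ ⋃ k ∈ Finset.range (M + 1), Ioo ((k - θ) / M) ((k + θ) / M) := by
      intro x hx
      by_contra hc
      exact hx.2 ⟨hx.1, hc⟩
    refine (measure_mono this).trans ((measure_biUnion_finset_le _ _).trans ?_)
    have e : ∀ k : ℕ, volume (Ioo (((k : ℝ) - θ) / M) ((k + θ) / M)) = ENNReal.ofReal (2 * θ / M) :=
      fun k => by rw [Real.volume_Ioo]; congr 1; ring
    simp only [e, Finset.sum_const, Finset.card_range]
    rw [← ENNReal.ofReal_nsmul]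
    apply ENNReal.ofReal_le_ofReal
    rw [nsmul_eq_mul, ← mul_div_assoc, div_le_iff₀ hM']
    push_cast
    nlinarith
  · show |(V (W x)).1 l - x.1 l| ≤ _
    by_cases hl : l = i₀
    · subst hl
      rw [c0]
      exact (comb_close (hVI _) (dV _ (x.2 l).1)).trans (le_max_left _ _)
    · exact (c1 x l hl).trans (le_max_right _ _)
  · show |(V (W _)).1 l - _| ≤ _
    by_cases hl : l = i₀
    · subst hl
      rw [c0, pt_self _ _ (hgrid k hk), gV]
      exact comb_close (hVI _) (by simp [hρ.le])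
    · exact c1 _ l hl
  · have hk' : (k : ℝ) + 1 ≤ N := by exact_mod_cast hk
    have hy1 : clamp (y i₁) = y i₁ := clamp_eq hy.1
    have hu1 : (k + θ) / N ∈ Icc (0 : ℝ) 1 := ⟨by positivity, by rw [div_le_one hN']; linarith⟩
    have hu2 : (k + 2 * θ) / N ∈ Icc (0 : ℝ) 1 := ⟨by positivity, by rw [div_le_one hN']; linarith⟩
    refine ⟨(k + θ) / N, (k + 2 * θ) / N, div_lt_div_of_pos_right (by linarith) hN',
      div_lt_div_of_pos_right (by linarith) hN',
      div_lt_div_of_pos_right (by push_cast; linarith) hN', fun l => ?_, fun l => ?_⟩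
    · show |(V (W _)).1 l - _| ≤ _
      by_cases hl : l = i₀
      · subst hl
        have e1 : (W (pt l y ((k + θ) / N))).1 i₁ = FW (y i₁) := by
          rw [W1, pt_self _ _ hu1, pt_ne hi.symm, hy1, hW1 ⟨k, hk, rfl⟩]
          simp
        rw [c0, e1, hV1 ⟨_, hy, rfl⟩, pt_self _ _ hu1, pt_self _ _ (hgrid (k + 1) hk)]
        have b1 := pV k _ le_rfl
        have b2 : FV ((k + θ) / N) ≤ ((k + 1 : ℕ) : ℝ) / N := by
          rw [← gV (k + 1)]
          apply mV.monotone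
          apply div_le_div_of_nonneg_right _ hN'.le
          push_cast; linarith
        have b3 : θ / N ≤ θ := div_le_self hθ0.le hN1
        have b4 : ((k : ℝ) + 1 - θ) / N = ((k + 1 : ℕ) : ℝ) / N - θ / N := by push_cast; ring
        simp only [Pi.one_apply, sub_self, zero_mul, one_mul, zero_add]
        rw [abs_le]; constructor <;> linarith
      · have := c1 (pt i₀ y ((k + θ) / N)) l hl
        rwa [pt_ne hl] at this ⊢
    · show |(V (W _)).1 l - _| ≤ _
      by_cases hl : l = i₀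
      · subst hl
        have e1 : (W (pt l y ((k + 2 * θ) / N))).1 i₁ = y i₁ := by
          rw [W1, pt_self _ _ hu2, pt_ne hi.symm, hy1, hW0 ⟨k, hk, rfl⟩]
          simp
        rw [c0, e1, hV0 hy, pt_self _ _ hu2, pt_self _ _ (hgrid k hk.le)]
        have b3 : 2 * θ / N ≤ 2 * θ := div_le_self (by linarith) hN1
        have b4 : ((k : ℝ) + 2 * θ) / N = (k : ℝ) / N + 2 * θ / N := by ring
        have b5 : 0 ≤ 2 * θ / N := by positivity
        simp only [Pi.zero_apply, sub_zero, zero_mul, one_mul, add_zero]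
        rw [abs_le]; constructor <;> linarith
      · have := c1 (pt i₀ y ((k + 2 * θ) / N)) l hl
        rwa [pt_ne hl] at this ⊢

end Pool.Agent.MP_c4f89b_an

end

-- part MP_c4f89b_an.Main
section

/-! The dense open sets and the main theorem. -/

namespace Pool.Agent.MP_c4f89b_an

open Set MeasureTheory Filter Topology
open scoped ENNReal

variable {d : ℕ}

/-- The function whose zeros are the fibre of the graph over `y`. -/
noncomputable def phi (i₀ j : Fin d) (f : C(Cube d, Cube d)) (y : Fin d → ℝ) (u : ℝ) : ℝ :=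
  (f (pt i₀ y u)).1 j - y i₀

lemma continuous_pt (i₀ : Fin d) : Continuous fun p : (Fin d → ℝ) × ℝ => pt i₀ p.1 p.2 :=
  continuous_proj.comp (continuous_fst.update i₀ continuous_snd)

lemma continuous_phi (i₀ j : Fin d) {Z : Type*} [TopologicalSpace Z] {f : Z → C(Cube d, Cube d)}
    {y : Z → Fin d → ℝ} {u : Z → ℝ} (hf : Continuous f) (hy : Continuous y) (hu : Continuous u) :
    Continuous fun z => phi i₀ j (f z) (y z) (u z) := by
  unfold phi
  refine ((continuous_coord j).comp (hf.eval ?_)).sub ((continuous_apply i₀).comp hy)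
  exact (continuous_pt i₀).comp (hy.prodMk hu)

/-- Parameters for which a weak sign change on `[a, b]` does not split. -/
def bad (i₀ j : Fin d) (a b : ℝ) (f : C(Cube d, Cube d)) : Set (Fin d → ℝ) :=
  {y | y ∈ Icc (0 : Fin d → ℝ) 1 ∧ phi i₀ j f y a * phi i₀ j f y b ≤ 0 ∧
    ¬ TwoCross (phi i₀ j f y) a b}

lemma isOpen_good (i₀ j : Fin d) (a b : ℝ) (ε : ℝ≥0∞) :
    IsOpen {f : C(Cube d, Cube d) | volume (bad i₀ j a b f) < ε} := by
  rw [isOpen_iff_mem_nhds]
  intro f hf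
  obtain ⟨V, hV, hVo, hVm⟩ := Set.exists_isOpen_lt_of_lt _ ε hf
  let K := Icc (0 : Fin d → ℝ) 1
  have : CompactSpace K := isCompact_iff_compactSpace.mp isCompact_Icc
  have cphi : ∀ u, Continuous fun p : C(Cube d, Cube d) × K => phi i₀ j p.1 p.2.1 u := fun u =>
    continuous_phi i₀ j continuous_fst (by fun_prop) continuous_const
  have h1 : IsOpen {p : C(Cube d, Cube d) × K | TwoCross (phi i₀ j p.1 p.2.1) a b} := by
    simp only [TwoCross, ofPred_exists]
    refine isOpen_iUnion fun a₁ => isOpen_iUnion fun b₁ => isOpen_iUnion fun a₂ =>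
      isOpen_iUnion fun b₂ => ?_
    simp only [ofPred_and]
    refine isOpen_const.inter (isOpen_const.inter (isOpen_const.inter (isOpen_const.inter
      (isOpen_const.inter (IsOpen.inter ?_ ?_)))))
    · exact isOpen_lt ((cphi _).mul (cphi _)) continuous_const
    · exact isOpen_lt ((cphi _).mul (cphi _)) continuous_const
  have h2 : IsClosed ({p : C(Cube d, Cube d) × K | phi i₀ j p.1 p.2.1 a * phi i₀ j p.1 p.2.1 b ≤ 0}
      ∩ {p | TwoCross (phi i₀ j p.1 p.2.1) a b}ᶜ ∩ {p | p.2.1 ∈ V}ᶜ) :=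
    ((isClosed_le ((cphi _).mul (cphi _)) continuous_const).inter h1.isClosed_compl).inter
      (hVo.preimage (by fun_prop)).isClosed_compl
  have h3 := (isClosedMap_fst_of_compactSpace _ h2).isOpen_compl
  refine mem_of_superset (h3.mem_nhds ?_) ?_
  · rintro ⟨⟨g, y⟩, ⟨⟨h4, h5⟩, h6⟩, rfl⟩
    exact h6 (hV ⟨y.2, h4, h5⟩)
  · intro g hg
    refine lt_of_le_of_lt (measure_mono ?_) hVm
    rintro y ⟨hy, h4, h5⟩
    by_contra h6
    exact hg ⟨(g, ⟨y, hy⟩), ⟨⟨h4, h5⟩, h6⟩, rfl⟩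

lemma null_zero_set (i₀ j : Fin d) (f : C(Cube d, Cube d)) (u : ℝ) :
    volume {y | phi i₀ j f y u = 0} = 0 := by
  by_contra hne
  have hc : Continuous fun y => phi i₀ j f y u :=
    continuous_phi i₀ j continuous_const continuous_id continuous_const
  have h1 := Measure.countable_meas_level_set_pos (μ := (volume : Measure (Fin d → ℝ)))
    hc.measurable
  have h2 : {t : ℝ | 0 < volume {y | phi i₀ j f y u = t}} = univ := by
    rw [eq_univ_iff_forall]
    intro t
    have : {y | phi i₀ j f y u = t} =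
        (fun y => y + Pi.single i₀ t) ⁻¹' {y | phi i₀ j f y u = 0} := by
      ext y
      have e : pt i₀ (y + Pi.single i₀ t) u = pt i₀ y u := by
        unfold pt
        congr 1
        ext l
        by_cases hl : l = i₀
        · subst hl; simp
        · simp [Function.update_of_ne hl, Pi.single_eq_of_ne hl]
      simp only [mem_ofPred_eq, mem_preimage, phi, e, Pi.add_apply, Pi.single_eq_same]
      constructor <;> intro h <;> linarith
    show 0 < volume _
    rw [this, measure_preimage_add_right]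
    exact pos_iff_ne_zero.mpr hne
  rw [h2] at h1
  exact Cardinal.not_countable_real h1

lemma tendsto_small (i₀ j : Fin d) (f : C(Cube d, Cube d)) (u : ℝ) :
    Tendsto (fun η : ℝ => volume (Icc (0 : Fin d → ℝ) 1 ∩ {y | |phi i₀ j f y u| ≤ η}))
      (𝓝[>] 0) (𝓝 0) := by
  have hc : Continuous fun y => phi i₀ j f y u :=
    continuous_phi i₀ j continuous_const continuous_id continuous_const
  have := tendsto_measure_biInter_gt (μ := (volume : Measure (Fin d → ℝ))) (a := (0 : ℝ))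
    (s := fun η : ℝ => Icc (0 : Fin d → ℝ) 1 ∩ {y | |phi i₀ j f y u| ≤ η})
    (fun r _ => (isClosed_Icc.inter (isClosed_le hc.abs continuous_const)).nullMeasurableSet)
    (fun r r' _ h y hy => ⟨hy.1, le_trans hy.2 h⟩)
    ⟨1, one_pos, ((measure_mono inter_subset_left).trans_lt isCompact_Icc.measure_lt_top).ne⟩
  have h0 : volume (⋂ r > (0 : ℝ), Icc (0 : Fin d → ℝ) 1 ∩ {y | |phi i₀ j f y u| ≤ r}) = 0 := by
    refine measure_mono_null ?_ (null_zero_set i₀ j f u)
    intro y hy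
    simp only [mem_iInter] at hy
    exact abs_nonpos_iff.mp (le_of_forall_pos_le_add fun r hr => by simpa using (hy r hr).2)
  rwa [h0] at this

lemma volume_slab (i₁ : Fin d) (B : Set ℝ) :
    volume (Icc (0 : Fin d → ℝ) 1 ∩ {y | y i₁ ∈ B}) ≤ volume B := by
  have : Icc (0 : Fin d → ℝ) 1 ∩ {y | y i₁ ∈ B} ⊆
      Set.pi univ (Function.update (fun _ => Icc (0 : ℝ) 1) i₁ B) := by
    rintro y ⟨hy, hB⟩ l -
    by_cases hl : l = i₁
    · subst hl; simpa using hB
    · rw [Function.update_of_ne hl]; exact ⟨hy.1 l, hy.2 l⟩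
  refine (measure_mono this).trans ?_
  rw [volume_pi_pi, Finset.prod_eq_single i₁]
  · simp
  · intro l _ hl
    simp [Function.update_of_ne hl]
  · simp

theorem dense_good {i₀ i₁ : Fin d} (hi : i₀ ≠ i₁) (j : Fin d) {p r q : ℕ} (hpr : p < r)
    (hrq : r ≤ q) {ε : ℝ≥0∞} (hε : 0 < ε) :
    Dense {f : Homeo d | volume (bad i₀ j (p / q) (r / q) f.1) < ε} := by
  rw [Metric.dense_iff]
  intro f δ hδ
  obtain ⟨ρ₀, hρ₀, hu₀⟩ := uniform_coord f.1 hδ
  obtain ⟨L, hL⟩ := exists_nat_gt (1 / ρ₀)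
  have hL' : (0 : ℝ) < L := lt_trans (by positivity) hL
  have hL0 : 0 < L := by exact_mod_cast hL'
  have hq0 : 0 < q := by omega
  have hq' : (1 : ℝ) ≤ q := by exact_mod_cast hq0
  set N := q * L with hN
  have hN0 : 0 < N := Nat.mul_pos hq0 hL0
  have hNρ : 1 / (N : ℝ) ≤ ρ₀ := by
    rw [div_lt_iff₀ hρ₀] at hL
    rw [div_le_iff₀ (by exact_mod_cast hN0), hN]
    push_cast
    nlinarith [mul_pos hρ₀ hL']
  have ep : (p : ℝ) / q = ((p * L : ℕ) : ℝ) / N := by
    rw [hN]; push_cast; field_simp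
  have er : (r : ℝ) / q = ((r * L : ℕ) : ℝ) / N := by
    rw [hN]; push_cast; field_simp
  have hlim : Tendsto (fun η : ℝ => ENNReal.ofReal η + ∑ k ∈ Finset.range (N + 1),
      volume (Icc (0 : Fin d → ℝ) 1 ∩ {y | |phi i₀ j f.1 y (k / N)| ≤ η})) (𝓝[>] 0) (𝓝 0) := by
    have h1 : Tendsto (fun η : ℝ => ENNReal.ofReal η) (𝓝[>] 0) (𝓝 0) := by
      have := (ENNReal.continuous_ofReal.tendsto 0).mono_left (nhdsWithin_le_nhds (s := Ioi 0))
      simpa using this
    have h2 := tendsto_finsetSum (Finset.range (N + 1))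
      fun k _ => tendsto_small i₀ j f.1 ((k : ℕ) / N)
    simpa using h1.add h2
  obtain ⟨η, hη, hη0⟩ := ((hlim.eventually (gt_mem_nhds hε)).and self_mem_nhdsWithin).exists
  have hη0 : 0 < η := hη0
  obtain ⟨ρ₁, hρ₁, hu₁⟩ := uniform_coord f.1 hη0
  obtain ⟨h, hh, S, hS, z0, z1, z2⟩ :=
    exists_zigzag hi hN0 (ρ := min ρ₀ ρ₁) (ε := η) (lt_min hρ₀ hρ₁) hη0
  refine ⟨⟨f.1.comp h, f.2.comp hh⟩, ?_, ?_⟩
  · rw [Metric.mem_ball, Subtype.dist_eq, ContinuousMap.dist_lt_iff hδ]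
    intro x
    exact hu₀ _ _ fun l => (z0 x l).trans (max_le hNρ (min_le_left _ _))
  · refine lt_of_le_of_lt ?_ hη
    have hsub : bad i₀ j (p / q) (r / q) (f.1.comp h) ⊆
        (Icc (0 : Fin d → ℝ) 1 ∩ {y | y i₁ ∈ Icc (0 : ℝ) 1 \ S}) ∪ ⋃ k ∈ Finset.range (N + 1),
          Icc (0 : Fin d → ℝ) 1 ∩ {y | |phi i₀ j f.1 y (k / N)| ≤ η} := by
      rintro y ⟨hy, hc, hn⟩
      by_contra hcon
      rw [mem_union, not_or] at hcon
      obtain ⟨hc1, hc2⟩ := hcon
      have hyS : y i₁ ∈ S := by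
        by_contra h'
        exact hc1 ⟨hy, ⟨hy.1 i₁, hy.2 i₁⟩, h'⟩
      have hbig : ∀ k : ℕ, k ≤ N → η < |phi i₀ j f.1 y (k / N)| := fun k hk => by
        by_contra h'
        exact hc2 (mem_biUnion (Finset.mem_coe.mpr (Finset.mem_range.mpr (Nat.lt_succ_of_le hk)))
          ⟨hy, not_lt.mp h'⟩)
      have close : ∀ (k : ℕ) (u : ℝ), k ≤ N →
          (∀ l, |(h (pt i₀ y u)).1 l - (pt i₀ y (k / N)).1 l| ≤ min ρ₀ ρ₁) →
          0 < phi i₀ j f.1 y (k / N) * phi i₀ j (f.1.comp h) y u := by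
        intro k u hk hl
        refine sign_stable (hbig k hk) ?_
        have := hu₁ _ _ fun l => (hl l).trans (min_le_right _ _)
        have h2 := abs_coord_le_dist (f.1 (h (pt i₀ y u))) (f.1 (pt i₀ y (k / N))) j
        simp only [phi, ContinuousMap.comp_apply, sub_sub_sub_cancel_right]
        linarith
      have hrN : r * L ≤ N := Nat.mul_le_mul_right L hrq
      have hpN : p * L ≤ r * L := Nat.mul_le_mul_right L hpr.le
      rw [ep, er] at hc hn
      have h1 := neg_transfer' (close _ _ (hpN.trans hrN) (z1 y _ (hpN.trans hrN)))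
        (close _ _ hrN (z1 y _ hrN)) hc
      obtain ⟨k, hk1, hk2, hk3⟩ := discrete_ivt (s := fun k : ℕ => phi i₀ j f.1 y (k / N)) hpN
        (fun k hk => abs_pos.mp (hη0.trans (hbig k (hk.trans hrN)))) h1
      obtain ⟨u₁, u₂, w1, w2, w3, w4, w5⟩ := z2 y hyS k (by omega)
      have hN' : (0 : ℝ) ≤ N := Nat.cast_nonneg N
      refine hn ⟨k / N, u₁, u₂, ((k + 1 : ℕ) : ℝ) / N, ?_, w1, w2, w3, ?_, ?_, ?_⟩
      · exact div_le_div_of_nonneg_right (by exact_mod_cast hk1) hN'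
      · exact div_le_div_of_nonneg_right (by exact_mod_cast hk2) hN'
      · exact neg_transfer (close k _ (by omega) (z1 y k (by omega)))
          (close (k + 1) _ (by omega) w4) hk3
      · exact neg_transfer (close k _ (by omega) w5)
          (close (k + 1) _ (by omega) (z1 y (k + 1) (by omega))) hk3
    refine (measure_mono hsub).trans ((measure_union_le _ _).trans (add_le_add ?_ ?_))
    · exact (volume_slab i₁ _).trans hS
    · exact measure_biUnion_finset_le _ _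

/-- The projection of `ℝ^(2d)` keeping the coordinates `x_l`, `l ≠ i₀`, and `f(x)_j`. -/
def prj (i₀ j : Fin d) (z : EuclideanSpace ℝ (Fin (d + d))) : Fin d → ℝ :=
  Function.update (fun l => z (Fin.castAdd d l)) i₀ (z (Fin.natAdd d j))

lemma lipschitz_prj (i₀ j : Fin d) : LipschitzWith 1 (prj i₀ j) := by
  refine LipschitzWith.of_dist_le_mul fun z z' => ?_
  rw [NNReal.coe_one, one_mul, dist_pi_le_iff dist_nonneg]
  intro l
  by_cases hl : l = i₀
  · subst hl
    simp only [prj, Function.update_self]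
    exact PiLp.dist_apply_le z z' _
  · simp only [prj, Function.update_of_ne hl]
    exact PiLp.dist_apply_le z z' _

lemma volume_prj_le (i₀ j : Fin d) (s : Set (EuclideanSpace ℝ (Fin (d + d)))) :
    volume (prj i₀ j '' s) ≤ μH[d] s := by
  have h := (lipschitz_prj i₀ j).hausdorffMeasure_image_le (d := d) (Nat.cast_nonneg d) s
  have e := hausdorffMeasure_pi_real (ι := Fin d)
  rw [Fintype.card_fin] at e
  rw [e] at h
  simpa using h

theorem not_sigmaFinite {i₀ : Fin d} (f : Homeo d)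
    (hf : ∀ (j : Fin d) (p r q : ℕ), p < r → r ≤ q → volume (bad i₀ j (p / q) (r / q) f.1) = 0) :
    ¬ ∃ A : ℕ → Set (EuclideanSpace ℝ (Fin (d + d))),
      graph f = ⋃ n, A n ∧ ∀ n, μH[d] (A n) < ⊤ := by
  rintro ⟨A, hA, hfin⟩
  let y₀ : Fin d → ℝ := fun _ => 1 / 2
  have hne : f.1 (pt i₀ y₀ 0) ≠ f.1 (pt i₀ y₀ 1) := fun h => by
    have := congrArg (fun x : Cube d => x.1 i₀) (f.2.injective h)
    simp only [pt_self i₀ y₀ (left_mem_Icc.mpr zero_le_one),
      pt_self i₀ y₀ (right_mem_Icc.mpr zero_le_one)] at this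
    exact zero_ne_one this
  obtain ⟨j, hj⟩ : ∃ j, (f.1 (pt i₀ y₀ 0)).1 j ≠ (f.1 (pt i₀ y₀ 1)).1 j := by
    by_contra hc
    push Not at hc
    exact hne (cube_ext hc)
  set α := (f.1 (pt i₀ y₀ 0)).1 j with hα
  set β := (f.1 (pt i₀ y₀ 1)).1 j with hβ
  have hαI : α ∈ Icc (0 : ℝ) 1 := (f.1 (pt i₀ y₀ 0)).2 j
  have hβI : β ∈ Icc (0 : ℝ) 1 := (f.1 (pt i₀ y₀ 1)).2 j
  let O : Set (Fin d → ℝ) := (Set.pi univ fun _ => Ioo (0 : ℝ) 1) ∩
    {y | phi i₀ j f.1 y 0 * phi i₀ j f.1 y 1 < 0}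
  have cphi : ∀ u, Continuous fun y => phi i₀ j f.1 y u := fun u =>
    continuous_phi i₀ j continuous_const continuous_id continuous_const
  have hO : IsOpen O := (isOpen_set_pi finite_univ fun _ _ => isOpen_Ioo).inter
    (isOpen_lt ((cphi 0).mul (cphi 1)) continuous_const)
  have hOne : O.Nonempty := by
    refine ⟨Function.update y₀ i₀ ((α + β) / 2), fun l _ => ?_, ?_⟩
    · by_cases hl : l = i₀
      · subst hl
        rw [Function.update_self]
        rcases lt_or_gt_of_ne hj with h | h <;> constructor <;>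
          linarith [hαI.1, hαI.2, hβI.1, hβI.2]
      · rw [Function.update_of_ne hl]
        constructor <;> norm_num [y₀]
    · have e : ∀ u, pt i₀ (Function.update y₀ i₀ ((α + β) / 2)) u = pt i₀ y₀ u := fun u => by
        simp [pt]
      simp only [mem_ofPred_eq, phi, e, Function.update_self, ← hα, ← hβ]
      have := sq_pos_of_ne_zero (sub_ne_zero.mpr hj)
      nlinarith
  have hpos : 0 < volume O := hO.measure_pos _ hOne
  have n1 : volume (⋃ t : {t : ℕ × ℕ × ℕ // t.1 < t.2.1 ∧ t.2.1 ≤ t.2.2},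
      bad i₀ j (t.1.1 / t.1.2.2) (t.1.2.1 / t.1.2.2) f.1) = 0 :=
    measure_iUnion_null fun t => hf j _ _ _ t.2.1 t.2.2
  have n2 : volume (⋃ n, {y | (prj i₀ j ⁻¹' {y} ∩ A n).Infinite}) = 0 :=
    measure_iUnion_null fun n =>
      null_infinite_fibres μH[d] volume (prj i₀ j) (volume_prj_le i₀ j) (A n) (hfin n)
  obtain ⟨y, hyO, hy⟩ : ∃ y ∈ O, y ∉ (⋃ t : {t : ℕ × ℕ × ℕ // t.1 < t.2.1 ∧ t.2.1 ≤ t.2.2},
      bad i₀ j (t.1.1 / t.1.2.2) (t.1.2.1 / t.1.2.2) f.1) ∪
      ⋃ n, {y | (prj i₀ j ⁻¹' {y} ∩ A n).Infinite} := by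
    by_contra hc
    push Not at hc
    exact hpos.ne' (measure_mono_null hc (measure_union_null n1 n2))
  simp only [mem_union, mem_iUnion, not_or, not_exists, mem_ofPred_eq, not_infinite] at hy
  have hyI : ∀ l, y l ∈ Icc (0 : ℝ) 1 := fun l => Ioo_subset_Icc_self (hyO.1 l trivial)
  refine not_countable_zeros (φ := phi i₀ j f.1 y)
    (continuous_phi i₀ j continuous_const continuous_const continuous_id) ?_ hyO.2 ?_
  · intro p r q hpr hrq hc
    by_contra hn
    exact hy.1 ⟨(p, r, q), hpr, hrq⟩ ⟨⟨fun l => (hyI l).1, fun l => (hyI l).2⟩, hc, hn⟩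
  · have hcount : (⋃ n, prj i₀ j ⁻¹' {y} ∩ A n).Countable :=
      countable_iUnion fun n => (hy.2 n).countable
    refine (hcount.image fun z => z (Fin.castAdd d i₀)).mono ?_
    rintro u ⟨hu, hu0⟩
    let z : EuclideanSpace ℝ (Fin (d + d)) :=
      WithLp.toLp 2 (Fin.append (fun l => (pt i₀ y u).1 l) (fun l => (f.1 (pt i₀ y u)).1 l))
    have hz1 : ∀ l, z (Fin.castAdd d l) = (pt i₀ y u).1 l := fun l => Fin.append_left _ _ l
    have hz2 : ∀ l, z (Fin.natAdd d l) = (f.1 (pt i₀ y u)).1 l := fun l => Fin.append_right _ _ l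
    have hzg : z ∈ ⋃ n, A n := hA ▸ ⟨pt i₀ y u, fun l => ⟨hz1 l, hz2 l⟩⟩
    obtain ⟨n, hn⟩ := mem_iUnion.mp hzg
    refine ⟨z, mem_iUnion.mpr ⟨n, ?_, hn⟩, by simp only [hz1, pt_self i₀ y hu]⟩
    show prj i₀ j z = y
    ext l
    by_cases hl : l = i₀
    · subst hl
      simp only [prj, Function.update_self, hz2]
      exact sub_eq_zero.mp hu0
    · simp only [prj, Function.update_of_ne hl, hz1, pt_ne hl, clamp_eq (hyI l)]

theorem generic_not_sigmaFinite (hd : 2 ≤ d) : ∃ G : Set (Homeo d), IsGδ G ∧ Dense G ∧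
    ∀ f ∈ G, ¬ ∃ A : ℕ → Set (EuclideanSpace ℝ (Fin (d + d))),
      graph f = ⋃ n, A n ∧ ∀ n, μH[d] (A n) < ⊤ := by
  let i₀ : Fin d := ⟨0, by omega⟩
  let i₁ : Fin d := ⟨1, by omega⟩
  have hi : i₀ ≠ i₁ := by simp [i₀, i₁]
  have := baire_homeo (Cube d)
  let U : Fin d × {t : ℕ × ℕ × ℕ // t.1 < t.2.1 ∧ t.2.1 ≤ t.2.2} × ℕ → Set (Homeo d) := fun s =>
    {f | volume (bad i₀ s.1 (s.2.1.1.1 / s.2.1.1.2.2) (s.2.1.1.2.1 / s.2.1.1.2.2) f.1) <
      ((s.2.2 : ℝ≥0∞))⁻¹}
  have hUo : ∀ s, IsOpen (U s) := fun s =>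
    (isOpen_good i₀ s.1 _ _ _).preimage continuous_subtype_val
  have hUd : ∀ s, Dense (U s) := fun s =>
    dense_good hi s.1 s.2.1.2.1 s.2.1.2.2 (ENNReal.inv_pos.mpr (ENNReal.natCast_ne_top _))
  refine ⟨⋂ s, U s, IsGδ.iInter_of_isOpen hUo, dense_iInter_of_isOpen hUo hUd, fun f hf =>
    not_sigmaFinite (i₀ := i₀) f fun j p r q hpr hrq => ?_⟩
  by_contra hne
  obtain ⟨n, hn⟩ := ENNReal.exists_inv_nat_lt hne
  exact lt_asymm hn (mem_iInter.mp hf (j, ⟨(p, r, q), hpr, hrq⟩, n))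

end Pool.Agent.MP_c4f89b_an

end
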